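import Pool.Agent.H126R2.CDC.Main

set_option autoImplicit false

/-!
There is no counterexample to the circuit double cover conjecture, so no smallest counterexample
has a cyclic 4-edge-cut.
-/

namespace Pool.Agent.Results.MP_b1bfa0_co.NoCounterexample

open Finset Pool.Agent.H126R2.CDC

open scoped Classical in
/-- the edge-cut given by `X`: the edges with one end in `X` and the other end outside `X` -/
noncomputable def cut {V E : Type} [Fintype E] (G : MGraph V E) (X : Finset V) : Finset E :=
  univ.filter (fun e => (∃ v ∈ G.ends e, v ∈ X) ∧ ∃ v ∈ G.ends e, v ∉ X)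

/-- the vertices `x` and `y` lie in the same component of the graph without the edges in `T` -/
def Joined {V E : Type} (G : MGraph V E) (T : Finset E) (x y : V) : Prop :=
  Relation.ReflTransGen (fun a b => ∃ e, e ∉ T ∧ G.ends e = s(a, b)) x y

/-- a cyclic edge-cut with exactly four edges: `X` is nonempty and proper, its edge-cut `T` has
exactly four edges, and two different components of `G - T` contain a circuit -/
def HasCyclicFourCut {V E : Type} [Fintype V] [DecidableEq V] [Fintype E] [DecidableEq E]
    (G : MGraph V E) : Prop :=
  ∃ X : Finset V, X.Nonempty ∧ X ≠ univ ∧ (cut G X).card = 4 ∧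
    ∃ C D : Finset E, G.IsCircuit C ∧ G.IsCircuit D ∧ Disjoint C (cut G X) ∧
      Disjoint D (cut G X) ∧
      ∀ e ∈ C, ∀ f ∈ D, ∀ x ∈ G.ends e, ∀ y ∈ G.ends f, ¬ Joined G (cut G X) x y

/-- a counterexample: a bridgeless graph without a circuit double cover -/
def IsCounterexample {V E : Type} [Fintype V] [DecidableEq V] [Fintype E] [DecidableEq E]
    (G : MGraph V E) : Prop :=
  G.Bridgeless ∧ ¬ ∃ F : Multiset (Finset E), G.IsCDC F

/-- a counterexample with the least number of vertices plus edges -/
def IsSmallestCounterexample {V E : Type} [Fintype V] [DecidableEq V] [Fintype E] [DecidableEq E]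
    (G : MGraph V E) : Prop :=
  IsCounterexample G ∧
    ∀ (V' E' : Type) [Fintype V'] [DecidableEq V'] [Fintype E'] [DecidableEq E']
      (G' : MGraph V' E'), IsCounterexample G' →
      Fintype.card V + Fintype.card E ≤ Fintype.card V' + Fintype.card E'

/-- Every finite bridgeless graph (loops and parallel edges allowed) has a circuit double cover;
hence there is no smallest counterexample with a cyclic 4-edge-cut. -/
theorem result :
    (∀ (V E : Type) [Fintype V] [DecidableEq V] [Fintype E] [DecidableEq E] (G : MGraph V E),
      G.Bridgeless → ∃ F : Multiset (Finset E), G.IsCDC F) ∧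
    ∀ (V E : Type) [Fintype V] [DecidableEq V] [Fintype E] [DecidableEq E] (G : MGraph V E),
      IsSmallestCounterexample G → ¬ HasCyclicFourCut G :=
  ⟨fun _ _ _ _ _ _ G hG => G.exists_cdc hG, fun _ _ _ _ _ _ G h _ => h.1.2 (G.exists_cdc h.1.1)⟩

end Pool.Agent.Results.MP_b1bfa0_co.NoCounterexample
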